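import Pool.Agent.Helper17.FP.Stmts

set_option autoImplicit false

/-! MP_c38931_co, project FP, module RII: the range `L ^ (1 / 4) < q ≤ x exp (- L ^ (9 / 10))`. -/

namespace Pool.Agent.Helper17.FP

open Finset Pool.Agent.Helper17.SO Pool.Agent.Helper17.SV

/-- one step of the telescoping comparison -/
theorem rii_step (i : ℕ) (hi : 1 ≤ i) :
    (i : ℝ) ^ (-(5 / 4) : ℝ) ≤ 8 * ((i : ℝ) ^ (-(1 / 4) : ℝ) - ((i : ℝ) + 1) ^ (-(1 / 4) : ℝ)) := by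
  have hi' : (1 : ℝ) ≤ i := by exact_mod_cast hi
  have hi0 : (0 : ℝ) < i := by linarith
  have hi1 : (0 : ℝ) < (i : ℝ) + 1 := by linarith
  obtain ⟨a, ha⟩ : ∃ a : ℝ, a = (i : ℝ) ^ (1 / 4 : ℝ) := ⟨_, rfl⟩
  obtain ⟨b, hb⟩ : ∃ b : ℝ, b = ((i : ℝ) + 1) ^ (1 / 4 : ℝ) := ⟨_, rfl⟩
  have ha0 : 0 < a := by rw [ha]; exact Real.rpow_pos_of_pos hi0 _
  have hb0 : 0 < b := by rw [hb]; exact Real.rpow_pos_of_pos hi1 _
  have hab : a ≤ b := by
    rw [ha, hb]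
    exact Real.rpow_le_rpow hi0.le (by linarith) (by norm_num)
  have ha4 : a ^ 4 = i := by
    rw [ha, ← Real.rpow_natCast, ← Real.rpow_mul hi0.le]
    norm_num
  have hb4 : b ^ 4 = (i : ℝ) + 1 := by
    rw [hb, ← Real.rpow_natCast, ← Real.rpow_mul hi1.le]
    norm_num
  have e1 : (i : ℝ) ^ (-(5 / 4) : ℝ) = 1 / a ^ 5 := by
    rw [ha, ← Real.rpow_natCast, ← Real.rpow_mul hi0.le, one_div, ← Real.rpow_neg hi0.le]
    norm_num
  have e2 : (i : ℝ) ^ (-(1 / 4) : ℝ) = 1 / a := by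
    rw [Real.rpow_neg hi0.le, ← ha, inv_eq_one_div]
  have e3 : ((i : ℝ) + 1) ^ (-(1 / 4) : ℝ) = 1 / b := by
    rw [Real.rpow_neg hi1.le, ← hb, inv_eq_one_div]
  rw [e1, e2, e3]
  have h1 : (b - a) * ((a + b) * (a ^ 2 + b ^ 2)) = 1 := by
    have : (b - a) * ((a + b) * (a ^ 2 + b ^ 2)) = b ^ 4 - a ^ 4 := by ring
    rw [this, ha4, hb4]; ring
  have h2 : (a + b) * (a ^ 2 + b ^ 2) ≤ 4 * b ^ 3 := by
    have : a ^ 2 ≤ b ^ 2 := by nlinarith
    calc (a + b) * (a ^ 2 + b ^ 2) ≤ (b + b) * (b ^ 2 + b ^ 2) := by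
          apply mul_le_mul (by linarith) (by linarith) (by positivity) (by positivity)
      _ = 4 * b ^ 3 := by ring
  have h3 : 1 ≤ (b - a) * (4 * b ^ 3) := by
    rw [← h1]
    exact mul_le_mul_of_nonneg_left h2 (by linarith)
  have h4 : b ^ 4 ≤ 2 * a ^ 4 := by rw [ha4, hb4]; linarith
  have h5 : 1 / a - 1 / b = (b - a) / (a * b) := by
    field_simp
  rw [h5, ← mul_div_assoc, div_le_div_iff₀ (by positivity) (by positivity)]
  -- 1 * (a * b) ≤ 8 * (b - a) * a ^ 5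
  have h6 : b ≤ (b - a) * (4 * b ^ 4) := by
    calc b = b * 1 := by ring
      _ ≤ b * ((b - a) * (4 * b ^ 3)) := mul_le_mul_of_nonneg_left h3 hb0.le
      _ = (b - a) * (4 * b ^ 4) := by ring
  have h7 : (b - a) * (4 * b ^ 4) ≤ (b - a) * (8 * a ^ 4) :=
    mul_le_mul_of_nonneg_left (by linarith) (by linarith)
  calc 1 * (a * b) = a * b := by ring
    _ ≤ a * ((b - a) * (8 * a ^ 4)) := mul_le_mul_of_nonneg_left (h6.trans h7) ha0.le
    _ = 8 * (b - a) * a ^ 5 := by ring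

/-- the tail of `∑ i ^ (-5/4)` -/
theorem rii_tail (i0 N : ℕ) (hi : 1 ≤ i0) :
    ∑ i ∈ Ico i0 (i0 + N), (i : ℝ) ^ (-(5 / 4) : ℝ) ≤
      8 * ((i0 : ℝ) ^ (-(1 / 4) : ℝ) - (((i0 + N : ℕ) : ℝ)) ^ (-(1 / 4) : ℝ)) := by
  induction N with
  | zero => simp
  | succ N ih =>
    have hs := rii_step (i0 + N) (by omega)
    rw [← Nat.add_assoc, Finset.sum_Ico_succ_top (by omega)]
    have e : (((i0 + N + 1 : ℕ) : ℝ)) = ((i0 + N : ℕ) : ℝ) + 1 := by push_cast; ring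
    rw [e]
    linarith

theorem rii_tail' (i0 : ℕ) (hi : 1 ≤ i0) (I : Finset ℕ) (hI : ∀ i ∈ I, i0 ≤ i) :
    ∑ i ∈ I, (i : ℝ) ^ (-(5 / 4) : ℝ) ≤ 8 * (i0 : ℝ) ^ (-(1 / 4) : ℝ) := by
  obtain ⟨M, hM⟩ : ∃ M : ℕ, ∀ i ∈ I, i < M := by
    refine ⟨I.sup id + 1, fun i hi => ?_⟩
    have : i ≤ I.sup id := Finset.le_sup (f := id) hi
    omega
  have hsub : I ⊆ Ico i0 (i0 + M) := by
    intro i h
    rw [Finset.mem_Ico]
    have := hM i h
    exact ⟨hI i h, by omega⟩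
  have h1 : ∑ i ∈ I, (i : ℝ) ^ (-(5 / 4) : ℝ) ≤ ∑ i ∈ Ico i0 (i0 + M), (i : ℝ) ^ (-(5 / 4) : ℝ) :=
    Finset.sum_le_sum_of_subset_of_nonneg hsub
      (fun i _ _ => Real.rpow_nonneg (Nat.cast_nonneg i) _)
  have h2 := rii_tail i0 M hi
  have h3 : 0 ≤ (((i0 + M : ℕ) : ℝ)) ^ (-(1 / 4) : ℝ) := Real.rpow_nonneg (Nat.cast_nonneg _) _
  linarith

theorem rii_L {x : ℕ} (hx : 16 ≤ x) : 2 < Real.log x := by
  have h16 : (16 : ℝ) ≤ x := by exact_mod_cast hx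
  have h1 : Real.log 16 ≤ Real.log x := Real.log_le_log (by norm_num) h16
  have h2 : Real.log 16 = 4 * Real.log 2 := by
    rw [show (16 : ℝ) = 2 ^ 4 by norm_num, Real.log_pow]; norm_num
  have h3 := Real.log_two_gt_d9
  linarith

/-- the block of a prime -/
theorem rii_block {q : ℕ} (hq : 3 ≤ q) : ∃ i : ℕ, 1 ≤ i ∧ 2 ^ i < q ∧ q ≤ 2 * 2 ^ i := by
  refine ⟨Nat.log 2 (q - 1), ?_, ?_, ?_⟩
  · exact (Nat.le_log_iff_pow_le (by norm_num) (by omega)).mpr (by omega)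
  · have := Nat.pow_log_le_self 2 (x := q - 1) (by omega)
    omega
  · have := Nat.lt_pow_succ_log_self (b := 2) (by norm_num) (q - 1)
    rw [pow_succ] at this
    omega

theorem st_RII (h1 : ST_BII) : ST_RII := by
  classical
  intro lam hlam
  obtain ⟨C, hC, hB⟩ := h1 lam hlam
  refine ⟨C * (Real.log 2) ^ (-(5 / 4) : ℝ) * 8 * (1 / 8 : ℝ) ^ (-(1 / 4) : ℝ), ?_, ?_⟩
  · have hl2 : 0 < Real.log 2 := Real.log_pos (by norm_num)
    have := Real.rpow_pos_of_pos hl2 (-(5 / 4) : ℝ)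
    have h8 : (0 : ℝ) < (1 / 8 : ℝ) ^ (-(1 / 4) : ℝ) := Real.rpow_pos_of_pos (by norm_num) _
    positivity
  intro x w hx hw S hS
  have hL := rii_L hx
  obtain ⟨L, hLd⟩ : ∃ L : ℝ, L = Real.log x := ⟨_, rfl⟩
  rw [← hLd] at hL
  have hl2 : 0 < Real.log 2 := Real.log_pos (by norm_num)
  have hl2' : Real.log 2 < 1 := by linarith [Real.log_two_lt_d9]
  have hLL : 0 < Real.log L := Real.log_pos (by linarith)
  have hx0 : (0 : ℝ) < x := by
    have : (16 : ℝ) ≤ x := by exact_mod_cast hx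
    linarith
  obtain ⟨i0, hi0⟩ : ∃ i0 : ℕ, i0 = max 1 ⌈Real.log L / 8⌉₊ := ⟨_, rfl⟩
  have hi01 : 1 ≤ i0 := by rw [hi0]; exact le_max_left _ _
  have hi02 : Real.log L / 8 ≤ i0 := by
    have h := Nat.le_ceil (Real.log L / 8)
    have h' : (⌈Real.log L / 8⌉₊ : ℝ) ≤ i0 := by
      rw [hi0]; exact_mod_cast le_max_right _ _
    linarith
  obtain ⟨U, hU⟩ : ∃ U : ℝ, U = (x : ℝ) / Real.exp (L ^ (9 / 10 : ℝ)) := ⟨_, rfl⟩
  have hUx : U ≤ x := by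
    rw [hU]
    apply div_le_self hx0.le
    apply Real.one_le_exp
    exact Real.rpow_nonneg (by linarith) _
  obtain ⟨I, hI⟩ : ∃ I : Finset ℕ, I = (range (x + 1)).filter (fun i => i0 ≤ i ∧
    (((2 ^ i : ℕ) : ℕ) : ℝ) ≤ U) := ⟨_, rfl⟩
  obtain ⟨T, hT⟩ : ∃ T : ℕ → Finset ℕ, ∀ i k, k ∈ T i ↔ (k ∈ S ∧
      ∃ q ∈ PP (2 ^ i) (2 * 2 ^ i), ArithF lam q k) :=
    ⟨fun i => S.filter (fun k => ∃ q ∈ PP (2 ^ i) (2 * 2 ^ i), ArithF lam q k),
      fun i k => by simp only [Finset.mem_filter]⟩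
  -- covering
  have hcov : S ⊆ I.biUnion T := by
    intro k hk
    obtain ⟨hkx, hG, q, hq1, hq2, hA⟩ := hS k hk
    have hq3 : 3 ≤ q := by
      obtain ⟨v, n, _, _, _, hv, hqp, hqv, _⟩ := hA
      have h2 : q ≠ 2 := by
        rintro rfl
        rw [Nat.odd_iff] at hv
        omega
      have := hqp.two_le
      omega
    have hqp : q.Prime := by
      obtain ⟨v, n, _, _, _, hv, hqp, hqv, _⟩ := hA
      exact hqp
    obtain ⟨i, hi1, hi2, hi3⟩ := rii_block hq3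
    rw [Finset.mem_biUnion]
    refine ⟨i, ?_, ?_⟩
    · rw [hI, Finset.mem_filter, Finset.mem_range]
      have hiU : (((2 ^ i : ℕ) : ℕ) : ℝ) ≤ U := by
        have h : (((2 ^ i : ℕ) : ℕ) : ℝ) ≤ (q : ℝ) := by exact_mod_cast hi2.le
        rw [hU, hLd]
        exact h.trans hq2
      have hix : i ≤ x := by
        have h : (((2 ^ i : ℕ) : ℕ) : ℝ) ≤ (x : ℝ) := hiU.trans hUx
        have h' : 2 ^ i ≤ x := by exact_mod_cast h
        have := Nat.lt_two_pow_self (n := i)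
        omega
      refine ⟨by omega, ?_, hiU⟩
      -- `i0 ≤ i`
      rw [hi0]
      apply max_le hi1
      apply Nat.ceil_le.mpr
      have h4 : L ^ (1 / 4 : ℝ) < 2 * 2 ^ i := by
        have h : (q : ℝ) ≤ 2 * 2 ^ i := by exact_mod_cast hi3
        rw [hLd]
        exact lt_of_lt_of_le hq1 h
      have h5 : (1 / 4 : ℝ) * Real.log L ≤ (i + 1) * Real.log 2 := by
        have h := Real.log_le_log (Real.rpow_pos_of_pos (by linarith) _) h4.le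
        rw [Real.log_rpow (by linarith), Real.log_mul (by norm_num) (by positivity),
          Real.log_pow] at h
        linarith
      have hi1' : (1 : ℝ) ≤ i := by exact_mod_cast hi1
      have h6 : ((i : ℝ) + 1) * Real.log 2 ≤ ((i : ℝ) + 1) * 1 :=
        mul_le_mul_of_nonneg_left hl2'.le (by linarith)
      linarith
    · rw [hT]
      refine ⟨hk, q, ?_, hA⟩
      rw [PP, Finset.mem_filter, Finset.mem_Ioc]
      exact ⟨⟨hi2, hi3⟩, hqp⟩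
  have hblock : ∀ i ∈ I, ((T i).card : ℝ) ≤
        C * x * ((Real.log 2) ^ (-(5 / 4) : ℝ) * (i : ℝ) ^ (-(5 / 4) : ℝ)) := by
    intro i hi
    rw [hI, Finset.mem_filter] at hi
    obtain ⟨_, hi1, hi2⟩ := hi
    have h2 : 2 ≤ 2 ^ i := by
      calc 2 = 2 ^ 1 := by norm_num
        _ ≤ 2 ^ i := Nat.pow_le_pow_right (by norm_num) (by omega)
    have h := hB x (2 ^ i) w hx hw h2 (by rw [← hLd, ← hU]; exact hi2) (T i) ?_
    · have e : Real.log ((2 ^ i : ℕ) : ℝ) = Real.log 2 * i := by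
        rw [Nat.cast_pow, Real.log_pow]; push_cast; ring
      rw [e, Real.mul_rpow hl2.le (Nat.cast_nonneg i)] at h
      exact h
    · intro k hk
      rw [hT] at hk
      obtain ⟨hkx, hG, _⟩ := hS k hk.1
      exact ⟨hkx, hG, hk.2⟩
  have hsum := rii_tail' i0 hi01 I (by
    intro i hi
    rw [hI, Finset.mem_filter] at hi
    exact hi.2.1)
  have hdec : (i0 : ℝ) ^ (-(1 / 4) : ℝ) ≤ (1 / 8 : ℝ) ^ (-(1 / 4) : ℝ) *
      (Real.log L) ^ (-(1 / 4) : ℝ) := by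
    rw [← Real.mul_rpow (by norm_num) hLL.le]
    apply Real.rpow_le_rpow_of_nonpos (by positivity) (by linarith) (by norm_num)
  have hl5 : 0 ≤ (Real.log 2) ^ (-(5 / 4) : ℝ) := Real.rpow_nonneg hl2.le _
  calc (S.card : ℝ) ≤ ((I.biUnion T).card : ℝ) := by
        exact_mod_cast Finset.card_le_card hcov
    _ ≤ ∑ i ∈ I, ((T i).card : ℝ) := by exact_mod_cast Finset.card_biUnion_le
    _ ≤ ∑ i ∈ I, C * x * ((Real.log 2) ^ (-(5 / 4) : ℝ) * (i : ℝ) ^ (-(5 / 4) : ℝ)) :=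
        Finset.sum_le_sum hblock
    _ = C * x * (Real.log 2) ^ (-(5 / 4) : ℝ) * ∑ i ∈ I, (i : ℝ) ^ (-(5 / 4) : ℝ) := by
        rw [Finset.mul_sum]
        refine Finset.sum_congr rfl (fun i _ => by ring)
    _ ≤ C * x * (Real.log 2) ^ (-(5 / 4) : ℝ) * (8 * ((1 / 8 : ℝ) ^ (-(1 / 4) : ℝ) *
      (Real.log L) ^ (-(1 / 4) : ℝ))) := by
        apply mul_le_mul_of_nonneg_left (by linarith) (by positivity)
    _ = C * (Real.log 2) ^ (-(5 / 4) : ℝ) * 8 * (1 / 8 : ℝ) ^ (-(1 / 4) : ℝ) * x *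
        (Real.log (Real.log x)) ^ (-(1 / 4) : ℝ) := by
        rw [← hLd]; ring

end Pool.Agent.Helper17.FP
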